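import Pool.Agent.H547.CV.Stm

set_option autoImplicit false
set_option linter.unusedSectionVars false

/-!
# S_W
-/

namespace Pool.Agent.H102.CV322

open Finset Pool.Agent.R439.PL Pool.Agent.H547 Pool.Agent.H547.CV

variable {p : ℕ} [hp : Fact p.Prime]

theorem tI (r m : ℕ) (h0 : 0 < m) (hm : m < p ^ r) : I p 1 (((p ^ r : ℕ) : ℚ) / (m : ℚ)) := by
  obtain ⟨e, u, hu, he⟩ := Nat.exists_eq_pow_mul_and_not_dvd h0.ne' p hp.out.ne_one
  have hu0 : 0 < u := by
    rcases Nat.eq_zero_or_pos u with h | h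
    · subst h; simp at hu
    · exact h
  have her : e < r := by
    have h1 : p ^ e ≤ m := by rw [he]; exact Nat.le_mul_of_pos_right _ hu0
    exact (Nat.pow_lt_pow_iff_right hp.out.one_lt).1 (lt_of_le_of_lt h1 hm)
  obtain ⟨s, rfl⟩ : ∃ s, r = e + 1 + s := ⟨r - (e + 1), by omega⟩
  have hU : U p (u : ℚ) := by
    have : ¬ (p : ℤ) ∣ (u : ℤ) := fun h => hu (Int.natCast_dvd_natCast.1 h)
    exact_mod_cast U_int this
  refine ⟨(p : ℚ) ^ s * (u : ℚ)⁻¹, mul_mem (pow_mem p_mem _) hU.2.2, ?_⟩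
  have hpn : (p : ℚ) ≠ 0 := p_ne
  have hun : (u : ℚ) ≠ 0 := hU.1
  rw [he]
  push_cast
  field_simp
  ring

theorem prod1 {ι : Type*} (s : Finset ι) (f : ι → ℚ) (h : ∀ i ∈ s, I p 1 (f i)) :
    I p 2 (∏ i ∈ s, (1 - f i) - (1 - ∑ i ∈ s, f i)) := by
  classical
  induction s using Finset.induction_on with
  | empty => simp only [prod_empty, sum_empty]; exact icg I.zero (by ring)
  | insert a s ha ih =>
    rw [prod_insert ha, sum_insert ha]
    have h1 := ih fun i hi => h i (mem_insert_of_mem hi)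
    have h2 := h a (mem_insert_self _ _)
    have h3 : I p 1 (∑ i ∈ s, f i) := I.sum fun i hi => h i (mem_insert_of_mem hi)
    have h4 : (1 - f a) ∈ Zp p := sub_mem (one_mem _) h2.mem
    have h5 : I p 2 (f a * ∑ i ∈ s, f i) := h2.mul h3
    exact icg ((h1.mulL h4).add h5) (by ring)

theorem choose_prod (a : ℕ) : ∀ m ≤ a, ((a.choose m : ℕ) : ℚ) =
    ∏ j ∈ range m, (((a : ℚ) + 1) / ((j : ℚ) + 1) - 1) := by
  intro m
  induction m with
  | zero => intro _; simp
  | succ m ih =>
    intro hm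
    rw [prod_range_succ, ← ih (by omega)]
    have h1 := Nat.choose_succ_right_eq a m
    have h2 : ((a.choose (m + 1) : ℕ) : ℚ) * ((m : ℚ) + 1) = ((a.choose m : ℕ) : ℚ) * ((a : ℚ) - m) := by
      have h3 : (((a.choose (m + 1) * (m + 1) : ℕ)) : ℚ) = ((a.choose m * (a - m) : ℕ) : ℚ) := by
        rw [h1]
      rw [Nat.cast_mul, Nat.cast_mul, Nat.cast_sub (by omega : m ≤ a)] at h3
      push_cast at h3
      exact h3
    have h4 : (m : ℚ) + 1 ≠ 0 := by positivity
    have h5 : ((a : ℚ) + 1) / ((m : ℚ) + 1) - 1 = ((a : ℚ) - m) / ((m : ℚ) + 1) := by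
      field_simp
      ring
    rw [h5, ← mul_div_assoc, eq_div_iff h4]
    exact h2

theorem central_prod (n : ℕ) : ((Nat.centralBinom n : ℕ) : ℚ) =
    4 ^ n * ∏ j ∈ range n, ((2 * (j : ℚ) + 1) / (2 * ((j : ℚ) + 1))) := by
  induction n with
  | zero => simp
  | succ n ih =>
    have h1 := Nat.succ_mul_centralBinom_succ n
    have h2 : ((n : ℚ) + 1) * ((Nat.centralBinom (n + 1) : ℕ) : ℚ) =
        2 * (2 * (n : ℚ) + 1) * ((Nat.centralBinom n : ℕ) : ℚ) := by
      exact_mod_cast h1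
    have h4 : (n : ℚ) + 1 ≠ 0 := by positivity
    have h5 : ((Nat.centralBinom (n + 1) : ℕ) : ℚ) =
        2 * (2 * (n : ℚ) + 1) * ((Nat.centralBinom n : ℕ) : ℚ) / ((n : ℚ) + 1) := by
      rw [eq_div_iff h4]
      linarith
    rw [h5, ih, prod_range_succ, pow_succ]
    field_simp
    ring

theorem refl_prod (n : ℕ) : ∏ j ∈ range n, (1 - 1 / 2 * ((2 * (n : ℚ) + 1) / ((j : ℚ) + 1))) =
    (-1) ^ n * ∏ j ∈ range n, ((2 * (j : ℚ) + 1) / (2 * ((j : ℚ) + 1))) := by
  rw [prod_div_distrib]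
  have h1 : ∏ j ∈ range n, (1 - 1 / 2 * ((2 * (n : ℚ) + 1) / ((j : ℚ) + 1))) =
      ∏ j ∈ range n, ((-1) * ((2 * ((n - 1 - j : ℕ) : ℚ) + 1) / (2 * ((j : ℚ) + 1)))) := by
    refine prod_congr rfl fun j hj => ?_
    have hj' := mem_range.1 hj
    have h2 : ((n - 1 - j : ℕ) : ℚ) = (n : ℚ) - 1 - j := by
      have : ((n - 1 - j : ℕ) : ℚ) + 1 + j = n := by
        have h3 : n - 1 - j + 1 + j = n := by omega
        exact_mod_cast h3
      linarith
    rw [h2]
    have h4 : (j : ℚ) + 1 ≠ 0 := by positivity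
    field_simp
    ring
  rw [h1, prod_mul_distrib, prod_const, card_range, prod_div_distrib]
  congr 2
  exact prod_range_reflect (fun j => 2 * (j : ℚ) + 1) n

theorem main (r : ℕ) (hp2 : p ≠ 2) (hr : 1 ≤ r) :
    I p 2 (4 ^ (p ^ r - 1) * w (p ^ r) - 1 / 2) ∧
    I p 2 ((2 : ℚ) ^ (p ^ r - 1) -
      (1 - 1 / 2 * ∑ j ∈ range (p ^ r / 2), ((p ^ r : ℕ) : ℚ) / ((j : ℚ) + 1))) := by
  have hodd : Odd (p ^ r) := (hp.out.odd_of_ne_two hp2).pow
  obtain ⟨n, hn⟩ := hodd
  have h2lt : 2 < p := lt_of_le_of_ne hp.out.two_le (Ne.symm hp2)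
  have hU2 : U p (2 : ℚ) := u2 h2lt
  have half : (1 / 2 : ℚ) ∈ Zp p := dmem (one_mem _) hU2
  have two : (2 : ℚ) ∈ Zp p := hU2.2.1
  have ht : ∀ j : ℕ, j + 1 < p ^ r → I p 1 (((p ^ r : ℕ) : ℚ) / ((j : ℚ) + 1)) := by
    intro j hj
    have := tI (p := p) r (j + 1) (by omega) hj
    push_cast at this ⊢
    exact this
  set t : ℕ → ℚ := fun j => ((p ^ r : ℕ) : ℚ) / ((j : ℚ) + 1) with htdef
  have hN : ((p ^ r : ℕ) : ℚ) = 2 * (n : ℚ) + 1 := by rw [hn]; push_cast; ring
  constructor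
  · -- the sum of all `t j`
    have hs : I p 2 (∑ j ∈ range (2 * n), (2 * t j)) := by
      have e1 : ∑ j ∈ range (2 * n), (2 * t j) = ∑ j ∈ range (2 * n), (t j * t (2 * n - 1 - j)) := by
        have e2 : ∑ j ∈ range (2 * n), t (2 * n - 1 - j) = ∑ j ∈ range (2 * n), t j :=
          sum_range_reflect t (2 * n)
        have e3 : ∑ j ∈ range (2 * n), (2 * t j) =
            ∑ j ∈ range (2 * n), (t j + t (2 * n - 1 - j)) := by
          rw [sum_add_distrib, e2, ← mul_sum]; ring
        rw [e3]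
        refine sum_congr rfl fun j hj => ?_
        have hj' := mem_range.1 hj
        have h2 : ((2 * n - 1 - j : ℕ) : ℚ) + 1 = 2 * (n : ℚ) - j := by
          have : ((2 * n - 1 - j : ℕ) : ℚ) + 1 + j = 2 * n := by
            have h3 : 2 * n - 1 - j + 1 + j = 2 * n := by omega
            exact_mod_cast h3
          linarith
        have h4 : (j : ℚ) + 1 ≠ 0 := by positivity
        have h5 : 2 * (n : ℚ) - j ≠ 0 := by rw [← h2]; positivity
        simp only [htdef]
        rw [h2, hN]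
        field_simp
        ring
      rw [e1]
      refine I.sum fun j hj => ?_
      have hj' := mem_range.1 hj
      exact (ht j (by omega)).mul (ht _ (by omega))
    have hP := prod1 (p := p) (range (2 * n)) (fun j => 2 * t j) (fun j hj =>
      (ht j (by have := mem_range.1 hj; omega)).mulL two)
    have hc : ((((2 * (2 * n) + 1).choose (2 * n) : ℕ)) : ℚ) =
        ∏ j ∈ range (2 * n), (1 - 2 * t j) := by
      rw [choose_prod _ _ (by omega)]
      have e1 : ∀ j ∈ range (2 * n), ((((2 * (2 * n) + 1 : ℕ) : ℚ) + 1) / ((j : ℚ) + 1) - 1) =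
          (-1) * (1 - 2 * t j) := by
        intro j _
        simp only [htdef]
        rw [hN]
        push_cast
        ring
      rw [prod_congr rfl e1, prod_mul_distrib, prod_const, card_range, pow_mul]
      norm_num
    have hcc : I p 2 (((((2 * (2 * n) + 1).choose (2 * n) : ℕ)) : ℚ) - 1) := by
      rw [hc]
      exact icg (hP.sub hs) (by ring)
    have hw : 4 ^ (p ^ r - 1) * w (p ^ r) =
        ((((2 * (2 * n) + 1).choose (2 * n) : ℕ)) : ℚ) * (1 / 2) := by
      unfold w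
      rw [hn]
      have e1 : Nat.centralBinom (2 * n + 1) = 2 * (2 * (2 * n) + 1).choose (2 * n) := by
        rw [Nat.centralBinom_eq_two_mul_choose]
        have e2 : 2 * (2 * n + 1) = (2 * (2 * n) + 1) + 1 := by ring
        rw [e2, Nat.choose_succ_succ, Nat.choose_symm_half]
        ring
      rw [e1, Nat.add_sub_cancel, pow_succ]
      push_cast
      have : (4 : ℚ) ^ (2 * n) ≠ 0 := by positivity
      field_simp
      ring
    rw [hw]
    exact icg (hcc.mulR half) (by ring)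
  · have hdiv : p ^ r / 2 = n := by omega
    have hsub : p ^ r - 1 = 2 * n := by omega
    rw [hdiv, hsub]
    have hlt : ∀ j ∈ range n, j + 1 < p ^ r := fun j hj => by have := mem_range.1 hj; omega
    have hA := prod1 (p := p) (range n) t (fun j hj => ht j (hlt j hj))
    have hB := prod1 (p := p) (range n) (fun j => 1 / 2 * t j)
      (fun j hj => (ht j (hlt j hj)).mulL half)
    have hS : I p 1 (∑ j ∈ range n, t j) := I.sum fun j hj => ht j (hlt j hj)
    set S : ℚ := ∑ j ∈ range n, t j with hSdef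
    set B : ℚ := ∏ j ∈ range n, (1 - 1 / 2 * t j) with hBdef
    set A : ℚ := ∏ j ∈ range n, (1 - t j) with hAdef
    have hsB : ∑ j ∈ range n, 1 / 2 * t j = 1 / 2 * S := by rw [hSdef, mul_sum]
    rw [hsB] at hB
    have hAB : A = 4 ^ n * B := by
      have e1 : ((Nat.centralBinom n : ℕ) : ℚ) = (-1) ^ n * A := by
        rw [Nat.centralBinom_eq_two_mul_choose, choose_prod _ _ (by omega), hAdef]
        have e1 : ∀ j ∈ range n, ((((2 * n : ℕ) : ℚ) + 1) / ((j : ℚ) + 1) - 1) =
            (-1) * (1 - t j) := by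
          intro j _
          simp only [htdef]
          rw [hN]
          push_cast
          ring
        rw [prod_congr rfl e1, prod_mul_distrib, prod_const, card_range]
      have e2 : B = (-1) ^ n * ∏ j ∈ range n, ((2 * (j : ℚ) + 1) / (2 * ((j : ℚ) + 1))) := by
        rw [← refl_prod, hBdef]
        refine prod_congr rfl fun j _ => ?_
        simp only [htdef]
        rw [hN]
      have e3 := central_prod n
      have e4 : ((-1 : ℚ) ^ n) * (-1) ^ n = 1 := by
        rw [← mul_pow]; norm_num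
      calc A = ((-1) ^ n * (-1) ^ n) * A := by rw [e4, one_mul]
        _ = (-1) ^ n * ((-1) ^ n * A) := by ring
        _ = (-1) ^ n * (4 ^ n * ∏ j ∈ range n, ((2 * (j : ℚ) + 1) / (2 * ((j : ℚ) + 1)))) := by
            rw [← e1, e3]
        _ = 4 ^ n * B := by rw [e2]; ring
    have hSh : I p 1 (1 / 2 * S) := hS.mulL half
    have hBm : B ∈ Zp p := by
      have := add_mem hB.mem (sub_mem (one_mem _) hSh.mem)
      rwa [sub_add_cancel] at this
    have hBU : U p B := by
      apply U_of_not_I hBm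
      intro hx
      apply not_I_one (p := p)
      exact icg ((hx.sub (hB.mono (by norm_num))).add hSh) (by ring)
    refine hBU.cancel ?_
    have h1 : I p 2 ((1 - 1 / 2 * S) * (B - (1 - 1 / 2 * S))) :=
      hB.mulL (sub_mem (one_mem _) hSh.mem)
    have h2 : I p 2 ((1 / 2 * S) * (1 / 2 * S)) := hSh.mul hSh
    refine icg ((hA.sub h1).sub h2) ?_
    have e5 : (2 : ℚ) ^ (2 * n) = 4 ^ n := by rw [pow_mul]; norm_num
    rw [e5]
    linear_combination hAB

theorem proof_W : Pool.Agent.H547.CV.S_W := by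
  intro p hp r hp2 hr
  exact main (p := p) r hp2 hr

end Pool.Agent.H102.CV322
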